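import Pool.Agent.Q221.NN.Weyl

/-!
A counterexample in homological degree zero: the irreducible affine Poisson surface
`X = Spec (ℂ + (x, y) ^ 2)` has the symplectic resolution `𝔸² → X` (its normalization), and
`HP_0(O_X)` has dimension one. Since `H²(𝔸²) = 0` there is only one quantization parameter, and for
every deformation quantization `A` of `O(𝔸²) = ℂ[x, y]` one has `HH_0(A[ħ⁻¹]) = 0`.
-/

set_option autoImplicit false

namespace Pool.Agent.Results.MP_86c931_ag.NonNormalSurface

open Pool.Agent.TH212 Pool.Agent.Q221.NN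

/-- Let `O` be the algebra of all `f ∈ ℂ[x, y]` with `∂_x f (0) = ∂_y f (0) = 0`, with the
restriction `P` of the bracket `Q` of `ℂ[x, y]`, `{f, g} = ∂_y f ∂_x g - ∂_x f ∂_y g`. Then `O` is
a finitely generated domain and the morphism `𝔸² → X = Spec O` is a symplectic resolution. The
zeroth Poisson homology `O / {O, O}` has dimension one, and the second algebraic de Rham cohomology
of `𝔸²` is zero (so that the space `ħ H²(𝔸²)⟦ħ⟧` of quantization parameters is a point). The algebra
`ℂ[x, y]` of functions on `𝔸²`, with the bracket `Q`, has a deformation quantization, and every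
deformation quantization `A` of it satisfies `HH_0(A[ħ⁻¹]) = A[ħ⁻¹] / [A[ħ⁻¹], A[ħ⁻¹]] = 0`, so that
all pieces `F ^ n / F ^ (n + 1)` of the associated graded space vanish. -/
theorem result :
    ∃ (O : Subalgebra ℂ (MvPolynomial (Fin 2) ℂ)) (P : PoissonBracket O)
      (Q : PoissonBracket (MvPolynomial (Fin 2) ℂ)),
      (∀ f, f ∈ O ↔ ∀ i, MvPolynomial.constantCoeff (MvPolynomial.pderiv i f) = 0) ∧
      (∀ f g, Q.br f g = MvPolynomial.pderiv 1 f * MvPolynomial.pderiv 0 g -
        MvPolynomial.pderiv 0 f * MvPolynomial.pderiv 1 g) ∧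
      IsDomain O ∧ Algebra.FiniteType ℂ O ∧ IsSymplecticResolution P Q O.val ∧
      Module.finrank ℂ P.HP0 = 1 ∧ Subsingleton H2dR ∧
      (∃ (A : Type) (_ : Ring A) (_ : Algebra (PowerSeries ℂ) A)
        (π : A →+* MvPolynomial (Fin 2) ℂ), IsDeformationQuantization Q π) ∧
      ∀ (A : Type) [Ring A] [Algebra (PowerSeries ℂ) A] (π : A →+* MvPolynomial (Fin 2) ℂ),
        IsDeformationQuantization Q π →
          Subsingleton (HH0 A) ∧ ∀ n : ℤ, Fil A (n + 1) = Fil A n ∧ Fil A n = {0} :=
  ⟨OX, PO, PR, fun _ => mem_OX, pb_apply, inferInstance, finiteType_OX, resolution, finrank_HP0,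
    subsingleton_H2dR, ⟨AW, inferInstance, inferInstance, piW, quantization⟩,
    fun _ _ _ _ h => ⟨subsingleton_HH0 h, Fil_eq h⟩⟩

end Pool.Agent.Results.MP_86c931_ag.NonNormalSurface
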